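import Pool.Agent.H486.LP.Stm5
import Pool.Agent.H486.LP.P15

/-!
# Matrices which move a point little
-/

set_option autoImplicit false

open UpperHalfPlane MeasureTheory Metric ModularGroup CongruenceSubgroup
open scoped MatrixGroups ENNReal Modular Topology NNReal ComplexConjugate Real

namespace Pool.Agent.H824.LP

open Pool.Agent.H486.LP

theorem cosh_le (t : ℝ) (h0 : 0 ≤ t) (h1 : t ≤ 1) : Real.cosh t ≤ 1 + t ^ 2 := by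
  have h2 := Real.cosh_le_exp_half_sq t
  have h3 : 0 ≤ t ^ 2 / 2 := by positivity
  have h4 : t ^ 2 / 2 ≤ 1 / 2 := by nlinarith
  have h5 := Real.exp_bound_div_one_sub_of_interval h3 (by linarith)
  have h6 : 1 / (1 - t ^ 2 / 2) ≤ 1 + t ^ 2 := by
    rw [div_le_iff₀ (by linarith)]
    nlinarith
  linarith

/-- the displacement of a point -/
theorem two_cosh_sub (δ : SL(2, ℝ)) (z : ℍ) : 2 * Real.cosh (dist (δ • z) z) - 2 =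
    (δ 0 0 - 2 * δ 1 0 * z.re - δ 1 1) ^ 2 +
    (δ 1 0 * z.im + (δ 0 1 + (δ 0 0 - δ 1 1) * z.re - δ 1 0 * z.re ^ 2) / z.im) ^ 2 := by
  have hdet := Matrix.SpecialLinearGroup.det_coe δ
  rw [Matrix.det_fin_two] at hdet
  rw [Pool.Agent.H486.LPp.P15.two_cosh]
  have hy := z.im_pos
  obtain ⟨a, ha⟩ : ∃ a : ℝ, a = δ 0 0 := ⟨_, rfl⟩
  obtain ⟨b, hb⟩ : ∃ b : ℝ, b = δ 0 1 := ⟨_, rfl⟩
  obtain ⟨c, hc⟩ : ∃ c : ℝ, c = δ 1 0 := ⟨_, rfl⟩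
  obtain ⟨d, hd⟩ : ∃ d : ℝ, d = δ 1 1 := ⟨_, rfl⟩
  obtain ⟨x, hx⟩ : ∃ x : ℝ, x = z.re := ⟨_, rfl⟩
  obtain ⟨y, hy'⟩ : ∃ y : ℝ, y = z.im := ⟨_, rfl⟩
  rw [← ha, ← hb, ← hc, ← hd] at hdet ⊢
  rw [← hx, ← hy']
  rw [← hy'] at hy
  obtain ⟨w, hw⟩ : ∃ w : ℝ, w = b + (a - d) * x - c * x ^ 2 := ⟨_, rfl⟩
  rw [← hw]
  have e : c * y * (w / y) = c * w := by
    field_simp
  have e2 : (c * y + w / y) ^ 2 = (c * y) ^ 2 + 2 * (c * w) + (w / y) ^ 2 := by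
    rw [← e]
    ring
  rw [e2, hw]
  linear_combination 2 * hdet

theorem h1 : S_disp := by
  intro Q hQ E hE z ρ hρ hρ' hd
  have hQ0 : (0 : ℝ) < Q := by exact_mod_cast hQ
  have hy := z.im_pos
  have k1 := two_cosh_sub (sQ Q E) z
  have k2 : Real.cosh (dist (sQ Q E • z) z) ≤ Real.cosh (2 * ρ) := by
    rw [Real.cosh_le_cosh, abs_of_nonneg dist_nonneg, abs_of_nonneg (by linarith)]
    exact hd
  have k3 := cosh_le (2 * ρ) (by linarith) (by linarith)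
  have k4 : 2 * Real.cosh (dist (sQ Q E • z) z) - 2 ≤ (4 * ρ) ^ 2 := by
    nlinarith [sq_nonneg ρ]
  rw [k1] at k4
  have h4 : ∀ i j, (sQ Q E) i j = (Q : ℝ)⁻¹ * (E i j : ℝ) := by
    intro i j
    unfold sQ
    rw [dif_pos ⟨hQ, hE⟩]
    rfl
  rw [h4, h4, h4, h4] at k4
  constructor
  · have k5 : ((Q : ℝ)⁻¹ * (E 0 0 : ℝ) - 2 * ((Q : ℝ)⁻¹ * (E 1 0 : ℝ)) * z.re -
        (Q : ℝ)⁻¹ * (E 1 1 : ℝ)) ^ 2 ≤ (4 * ρ) ^ 2 :=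
      le_trans (le_add_of_nonneg_right (sq_nonneg _)) k4
    have k6 := abs_le_of_sq_le_sq k5 (by linarith)
    have k7 : (Q : ℝ)⁻¹ * (E 0 0 : ℝ) - 2 * ((Q : ℝ)⁻¹ * (E 1 0 : ℝ)) * z.re -
        (Q : ℝ)⁻¹ * (E 1 1 : ℝ) =
        -((2 * (E 1 0 : ℝ) * z.re + ((E 1 1 : ℝ) - (E 0 0 : ℝ))) / Q) := by
      field_simp
      ring
    rw [k7, abs_neg, abs_div, abs_of_pos hQ0, div_le_iff₀ hQ0] at k6
    exact k6
  · intro e1 e2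
    have k5 : ((Q : ℝ)⁻¹ * (E 1 0 : ℝ) * z.im + ((Q : ℝ)⁻¹ * (E 0 1 : ℝ) +
        ((Q : ℝ)⁻¹ * (E 0 0 : ℝ) - (Q : ℝ)⁻¹ * (E 1 1 : ℝ)) * z.re -
        (Q : ℝ)⁻¹ * (E 1 0 : ℝ) * z.re ^ 2) / z.im) ^ 2 ≤ (4 * ρ) ^ 2 :=
      le_trans (le_add_of_nonneg_left (sq_nonneg _)) k4
    rw [e1, e2] at k5
    have k7 : (Q : ℝ)⁻¹ * ((0 : ℤ) : ℝ) * z.im + ((Q : ℝ)⁻¹ * (E 0 1 : ℝ) +
        ((Q : ℝ)⁻¹ * (E 0 0 : ℝ) - (Q : ℝ)⁻¹ * (E 0 0 : ℝ)) * z.re -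
        (Q : ℝ)⁻¹ * ((0 : ℤ) : ℝ) * z.re ^ 2) / z.im = (E 0 1 : ℝ) / (Q * z.im) := by
      rw [Int.cast_zero]
      field_simp
      ring
    rw [k7] at k5
    have k6 := abs_le_of_sq_le_sq k5 (by linarith)
    rw [abs_div, abs_of_pos (mul_pos hQ0 hy), div_le_iff₀ (mul_pos hQ0 hy)] at k6
    linarith [k6, mul_assoc (4 * ρ) (Q : ℝ) z.im]

end Pool.Agent.H824.LP
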